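import Pool.Agent.Q215.GrB

set_option autoImplicit false

/-!
The multiplication graph of every group of cardinality of the continuum is of class one with
respect to a suitable countable family of elementary sets.
-/

namespace Pool.Agent.Results.MP_23a294_lc.ClassOne

open Set Cardinal MeasureTheory

universe u

/-- The Borel field over the sets `A n`: the `σ`-algebra generated by them. -/
def BorelField {E : Type u} (A : ℕ → Set E) : Set (Set E) :=
  {B | MeasurableSet[MeasurableSpace.generateFrom (range A)] B}

/-- The sets of class `k` with respect to `A`. Class `0` consists of the products of three members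
of the Borel field over `A` and their complements, class `k + 1` consists of the countable unions
of members of class `k` and the complements of such unions. -/
def OfClass {E : Type u} (A : ℕ → Set E) : ℕ → Set (Set (E × E × E))
  | 0 => {Z | ∃ B₁ ∈ BorelField A, ∃ B₂ ∈ BorelField A, ∃ B₃ ∈ BorelField A,
      Z = B₁ ×ˢ B₂ ×ˢ B₃ ∨ Z = (B₁ ×ˢ B₂ ×ˢ B₃)ᶜ}
  | k + 1 => {Z | ∃ F : ℕ → Set (E × E × E), (∀ n, F n ∈ OfClass A k) ∧
      (Z = ⋃ n, F n ∨ Z = (⋃ n, F n)ᶜ)}

/-- The representation of a group: the set of the triples `(x, y, z)` with `x y = z`. -/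
def representation (E : Type u) [Group E] : Set (E × E × E) := {p | p.1 * p.2.1 = p.2.2}

/-- Let `E` be a group whose underlying set has the cardinality of the continuum. There is a
sequence `A` of subsets of `E` such that the representation of `E` is of class `1` with respect to
`A`, and hence of every class `k ≥ 1`, in particular of class `3`. The representation is of class
`0` with respect to no sequence. -/
theorem result (E : Type u) [Group E] (hE : #E = 𝔠) :
    (∃ A : ℕ → Set E, ∀ k, 1 ≤ k → representation E ∈ OfClass A k) ∧
      ∀ A : ℕ → Set E, representation E ∉ OfClass A 0 := by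
  constructor
  · obtain ⟨A, B, C, h⟩ := Q215.Gr.cl_group (G := E) hE.le
    -- one sequence listing all sides
    let D : ℕ → Set E := fun n => if n % 3 = 0 then A (n / 3) else
      if n % 3 = 1 then B (n / 3) else C (n / 3)
    have hA : ∀ m, A m ∈ BorelField D := fun m => by
      refine MeasurableSpace.measurableSet_generateFrom ⟨3 * m, ?_⟩
      have h1 : 3 * m % 3 = 0 := by omega
      have h2 : 3 * m / 3 = m := by omega
      simp only [D, h1, h2, if_true]
    have hB : ∀ m, B m ∈ BorelField D := fun m => by
      refine MeasurableSpace.measurableSet_generateFrom ⟨3 * m + 1, ?_⟩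
      have h1 : (3 * m + 1) % 3 = 1 := by omega
      have h2 : (3 * m + 1) / 3 = m := by omega
      simp only [D, h1, h2, if_true]
      rfl
    have hC : ∀ m, C m ∈ BorelField D := fun m => by
      refine MeasurableSpace.measurableSet_generateFrom ⟨3 * m + 2, ?_⟩
      have h1 : (3 * m + 2) % 3 = 2 := by omega
      have h2 : (3 * m + 2) / 3 = m := by omega
      simp only [D, h1, h2]
      rfl
    have h1 : representation E ∈ OfClass D 1 := by
      refine ⟨fun m => A m ×ˢ B m ×ˢ C m, fun m => ⟨A m, hA m, B m, hB m, C m, hC m, Or.inl rfl⟩,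
        Or.inr ?_⟩
      ext ⟨x, y, z⟩
      rw [mem_compl_iff, mem_iUnion, not_exists]
      exact h x y z
    refine ⟨D, fun k hk => ?_⟩
    induction k, hk using Nat.le_induction with
    | base => exact h1
    | succ k _ ih => exact ⟨fun _ => representation E, fun _ => ih, Or.inl (iUnion_const _).symm⟩
  · rintro A ⟨B₁, -, B₂, -, B₃, -, h⟩
    have hn : Nontrivial E := by
      rw [← Cardinal.one_lt_iff_nontrivial, hE]
      exact Cardinal.one_lt_aleph0.trans Cardinal.aleph0_lt_continuum
    obtain ⟨a, ha⟩ := exists_ne (1 : E)
    rcases h with h | h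
    · -- a product
      have h1 : ((1, 1, 1) : E × E × E) ∈ B₁ ×ˢ B₂ ×ˢ B₃ := by
        rw [← h]
        exact mul_one 1
      have h2 : ((a, 1, a) : E × E × E) ∈ B₁ ×ˢ B₂ ×ˢ B₃ := by
        rw [← h]
        exact mul_one a
      have h3 : ((a, 1, 1) : E × E × E) ∈ representation E := by
        rw [h]
        exact ⟨h2.1, h1.2.1, h1.2.2⟩
      have h4 : a * 1 = 1 := h3
      exact ha (by simpa using h4)
    · -- the complement of a product
      have h1 : ∀ x y z : E, x * y ≠ z → x ∈ B₁ ∧ y ∈ B₂ ∧ z ∈ B₃ := by
        intro x y z hxyz
        by_contra hc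
        have h2 : ((x, y, z) : E × E × E) ∈ representation E := by
          rw [h]
          exact hc
        exact hxyz h2
      have h2 := h1 a 1 1 (by simpa using ha)
      have h3 := h1 1 1 a (by simpa using ha.symm)
      have h4 : ((1, 1, 1) : E × E × E) ∈ representation E := mul_one 1
      rw [h] at h4
      exact h4 ⟨h3.1, h3.2.1, h2.2.2⟩

end Pool.Agent.Results.MP_23a294_lc.ClassOne
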